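import Pool.Agent.H30.Jg.Reach

set_option autoImplicit false

/-!
From the cubic graph to the data `σ`, `m`.
-/

namespace Pool.Agent.H30.Jg

variable {V : Type*} [Fintype V] [DecidableEq V]

/-- The third neighbour. -/
theorem third (G : SimpleGraph V) [DecidableRel G.Adj] (hreg : G.IsRegularOfDegree 3)
    (σ : Equiv.Perm V) (hσ : ∀ v, G.Adj v (σ v)) (h2 : ∀ v, σ (σ v) ≠ v) :
    ∃ m : V → V, (∀ v, m (m v) = v) ∧
      (∀ v w, G.Adj v w ↔ w = σ v ∨ w = σ.symm v ∨ w = m v) ∧
      (∀ v, m v ≠ σ v) ∧ (∀ v, m v ≠ σ.symm v) := by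
  have hσ' : ∀ v, G.Adj v (σ.symm v) := by
    intro v
    have := hσ (σ.symm v)
    rw [Equiv.apply_symm_apply] at this
    exact this.symm
  have hne : ∀ v, σ v ≠ σ.symm v := by
    intro v hh
    apply h2 v
    rw [hh, Equiv.apply_symm_apply]
  have hex : ∀ v, ∃ w, G.neighborFinset v \ {σ v, σ.symm v} = {w} := by
    intro v
    rw [← Finset.card_eq_one]
    have hsub : ({σ v, σ.symm v} : Finset V) ⊆ G.neighborFinset v := by
      intro w hw
      simp only [Finset.mem_insert, Finset.mem_singleton] at hw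
      rw [SimpleGraph.mem_neighborFinset]
      rcases hw with rfl | rfl
      · exact hσ v
      · exact hσ' v
    have h1 := Finset.card_sdiff_add_card_eq_card hsub
    have h3 : ({σ v, σ.symm v} : Finset V).card = 2 := Finset.card_pair (hne v)
    have h4 : (G.neighborFinset v).card = 3 := hreg v
    omega
  choose m hmw using hex
  have hmem : ∀ v w, w ∈ G.neighborFinset v \ {σ v, σ.symm v} ↔ w = m v := by
    intro v w
    rw [hmw, Finset.mem_singleton]
  have hiff : ∀ v w, w = m v ↔ G.Adj v w ∧ w ≠ σ v ∧ w ≠ σ.symm v := by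
    intro v w
    rw [← hmem]
    simp only [Finset.mem_sdiff, SimpleGraph.mem_neighborFinset, Finset.mem_insert,
      Finset.mem_singleton, not_or]
  have hm0 : ∀ v, G.Adj v (m v) ∧ m v ≠ σ v ∧ m v ≠ σ.symm v := fun v => (hiff v (m v)).mp rfl
  refine ⟨m, fun v => ?_, fun v w => ?_, fun v => (hm0 v).2.1, fun v => (hm0 v).2.2⟩
  · symm
    rw [hiff]
    refine ⟨(hm0 v).1.symm, ?_, ?_⟩
    · intro hh
      apply (hm0 v).2.2
      rw [Equiv.eq_symm_apply]
      exact hh.symm
    · intro hh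
      apply (hm0 v).2.1
      rw [Equiv.eq_symm_apply] at hh
      exact hh.symm
  · constructor
    · intro hadj
      by_cases h3 : w = σ v
      · exact Or.inl h3
      by_cases h4 : w = σ.symm v
      · exact Or.inr (Or.inl h4)
      exact Or.inr (Or.inr ((hiff v w).mpr ⟨hadj, h3, h4⟩))
    · rintro (rfl | rfl | rfl)
      · exact hσ v
      · exact hσ' v
      · exact (hm0 v).1

lemma blk_le (σ : Equiv.Perm V) (v : V) {k : ℕ} (hk : 0 < k) (hk5 : k ≤ 5)
    (h : (σ ^ k) v = v) : blk σ v ≤ 5 := by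
  have hfin : blk σ v ≤ ((Finset.range k).image (fun i => (σ ^ i) v)).card := by
    rw [blk]
    refine Finset.card_le_card fun w hw => ?_
    simp only [Finset.mem_filter, Finset.mem_univ, true_and] at hw
    obtain ⟨i, -, hi⟩ := hw.exists_pow_eq'
    rw [Finset.mem_image]
    refine ⟨i % k, Finset.mem_range.mpr (Nat.mod_lt _ hk), ?_⟩
    rw [← hi]
    have hfix : ∀ n : ℕ, ((σ ^ k) ^ n) v = v := by
      intro n
      induction n with
      | zero => simp
      | succ n ih => rw [pow_succ', Equiv.Perm.mul_apply, ih, h]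
    conv_rhs => rw [← Nat.mod_add_div i k, pow_add, pow_mul, Equiv.Perm.mul_apply, hfix]
  calc blk σ v ≤ ((Finset.range k).image (fun i => (σ ^ i) v)).card := hfin
    _ ≤ (Finset.range k).card := Finset.card_image_le
    _ = k := Finset.card_range k
    _ ≤ 5 := hk5

omit [DecidableEq V] in
/-- A nonempty union of cycles of `σ` contains a cycle of the graph. -/
theorem not_acyclic (G : SimpleGraph V) (σ : Equiv.Perm V) (hσ : ∀ v, G.Adj v (σ v))
    (h2 : ∀ v, σ (σ v) ≠ v) (Y : Set V) (hY : ∀ v, σ v ∈ Y ↔ v ∈ Y) (hne : Y.Nonempty) :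
    ¬ (G.induce Y).IsAcyclic := by
  have hY' : ∀ v, σ.symm v ∈ Y ↔ v ∈ Y := by
    intro v
    rw [← hY (σ.symm v), Equiv.apply_symm_apply]
  have hneq : ∀ v, σ v ≠ σ.symm v := by
    intro v hh
    apply h2 v
    rw [hh, Equiv.apply_symm_apply]
  let F : SimpleGraph Y :=
    { Adj := fun v w => w.1 = σ v.1 ∨ v.1 = σ w.1
      symm := ⟨fun _ _ h => h.symm⟩
      loopless := ⟨fun v h => by
        rcases h with h | h
        · exact (hσ v.1).ne h
        · exact (hσ v.1).ne h⟩ }
  have hF : F ≤ G.induce Y := by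
    intro v w h
    rw [SimpleGraph.comap_adj]
    rcases h with h | h
    · change G.Adj v.1 w.1
      rw [h]
      exact hσ _
    · change G.Adj v.1 w.1
      rw [h]
      exact (hσ _).symm
  have hnb : ∀ v : Y, F.neighborSet v =
      {⟨σ v.1, (hY v.1).mpr v.2⟩, ⟨σ.symm v.1, (hY' v.1).mpr v.2⟩} := by
    intro v
    ext w
    rw [SimpleGraph.mem_neighborSet, Set.mem_insert_iff, Set.mem_singleton_iff, Subtype.ext_iff,
      Subtype.ext_iff]
    change (w.1 = σ v.1 ∨ v.1 = σ w.1) ↔ (w.1 = σ v.1 ∨ w.1 = σ.symm v.1)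
    rw [Equiv.eq_symm_apply]
    exact or_congr_right eq_comm
  have hcyc : F.IsCycles := by
    intro v _
    rw [hnb]
    exact Set.ncard_pair (by
      intro hh
      exact hneq v.1 (congrArg Subtype.val hh))
  obtain ⟨y, hy⟩ := hne
  obtain ⟨c, hc, -⟩ := hcyc.exists_cycle_toSubgraph_verts_eq_connectedComponentSupp
    (c := F.connectedComponentMk ⟨y, hy⟩) (v := ⟨y, hy⟩)
    (SimpleGraph.ConnectedComponent.connectedComponentMk_mem) (by
      rw [hnb]
      exact ⟨_, Set.mem_insert _ _⟩)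
  intro hac
  exact hac (c.mapLe hF) (hc.mapLe hF)

/-- The cut condition. -/
theorem cut_cond (G : SimpleGraph V) [DecidableRel G.Adj] (σ : Equiv.Perm V)
    (h4 : ∀ X : Finset V, (∀ v, σ v ∈ X ↔ v ∈ X) →
        ¬ (G.induce (X : Set V)).IsAcyclic →
        ¬ (G.induce {v : V | v ∉ X}).IsAcyclic →
        4 ≤ ((Finset.univ ×ˢ Finset.univ).filter
              (fun p : V × V => p.1 ∈ X ∧ p.2 ∉ X ∧ G.Adj p.1 p.2)).card)
    (hσ : ∀ v, G.Adj v (σ v)) (h2 : ∀ v, σ (σ v) ≠ v) (m : V → V)
    (hG : ∀ v w, G.Adj v w ↔ w = σ v ∨ w = σ.symm v ∨ w = m v)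
    (X : Finset V) (hX : ∀ v, σ v ∈ X ↔ v ∈ X) (hne : X.Nonempty) (hX' : X ≠ Finset.univ) :
    4 ≤ (X.filter (fun v => m v ∉ X)).card := by
  have hXs : ∀ v, σ.symm v ∈ X ↔ v ∈ X := by
    intro v
    rw [← hX (σ.symm v), Equiv.apply_symm_apply]
  refine (h4 X hX ?_ ?_).trans ?_
  · exact not_acyclic G σ hσ h2 _ (fun v => by simpa using hX v) hne
  · refine not_acyclic G σ hσ h2 _ (fun v => ?_) ?_
    · simp only [Set.mem_ofPred_eq, hX]
    · by_contra hcon
      rw [Set.not_nonempty_iff_eq_empty] at hcon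
      apply hX'
      ext v
      simp only [Finset.mem_univ, iff_true]
      by_contra hv
      have : v ∈ {v : V | v ∉ X} := hv
      rw [hcon] at this
      exact this
  · refine Finset.card_le_card_of_injOn Prod.fst ?_ ?_
    · rintro ⟨v, w⟩ hp
      simp only [Finset.coe_filter, Set.mem_ofPred_eq, Finset.mem_product, Finset.mem_univ,
        true_and] at hp ⊢
      obtain ⟨hv, hw, hadj⟩ := hp
      refine ⟨hv, ?_⟩
      rcases (hG v w).mp hadj with rfl | rfl | rfl
      · exact absurd ((hX v).mpr hv) hw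
      · exact absurd ((hXs v).mpr hv) hw
      · exact hw
    · rintro ⟨v, w⟩ hp ⟨v', w'⟩ hp' hvv
      simp only [Finset.coe_filter, Set.mem_ofPred_eq, Finset.mem_product, Finset.mem_univ,
        true_and] at hp hp' hvv
      subst hvv
      obtain ⟨hv, hw, hadj⟩ := hp
      obtain ⟨-, hw', hadj'⟩ := hp'
      have key : ∀ u, u ∉ X → G.Adj v u → u = m v := by
        intro u hu hadj
        rcases (hG v u).mp hadj with rfl | rfl | h
        · exact absurd ((hX v).mpr hv) hu
        · exact absurd ((hXs v).mpr hv) hu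
        · exact h
      rw [key w hw hadj, key w' hw' hadj']

omit [Fintype V] [DecidableEq V] in
/-- A graph of maximum degree one is acyclic. -/
theorem acyclic_of_unique [Finite V] (K : SimpleGraph V)
    (h : ∀ v w w', K.Adj v w → K.Adj v w' → w = w') : K.IsAcyclic := by
  intro v c hc
  have h2 := hc.ncard_neighborSet_toSubgraph_eq_two (c.start_mem_support)
  obtain ⟨x, y, hxy, hset⟩ := Set.ncard_eq_two.mp h2
  have hx : x ∈ c.toSubgraph.neighborSet v := by rw [hset]; simp
  have hy : y ∈ c.toSubgraph.neighborSet v := by rw [hset]; simp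
  exact hxy (h v x y hx.adj_sub hy.adj_sub)

end Pool.Agent.H30.Jg
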