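import Pool.Agent.H30.Jg.Pack

set_option autoImplicit false

/-!
Two edge-disjoint connected spanning subgraphs of the contracted graph.
The vertices of the contracted graph are the cycles of the permutation `σ`, its edges are the
pairs `{v, m v}`.
-/

namespace Pool.Agent.H30.Jg

open Module

variable {V : Type*}

/-- Functions which are constant on the cycles of `σ` and on the pairs `{v, m v}`, `v ∈ I`. -/
def Zs (σ : Equiv.Perm V) (m : V → V) (I : Finset V) : Submodule (ZMod 2) (V → ZMod 2) where
  carrier := {g | (∀ v, g (σ v) = g v) ∧ ∀ v ∈ I, g (m v) = g v}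
  add_mem' := by
    rintro a b ⟨ha, ha'⟩ ⟨hb, hb'⟩
    refine ⟨fun v => ?_, fun v hv => ?_⟩
    · simp only [Pi.add_apply, ha, hb]
    · simp only [Pi.add_apply, ha' v hv, hb' v hv]
  zero_mem' := ⟨fun v => rfl, fun v _ => rfl⟩
  smul_mem' := by
    rintro c a ⟨ha, ha'⟩
    refine ⟨fun v => ?_, fun v hv => ?_⟩
    · simp only [Pi.smul_apply, ha]
    · simp only [Pi.smul_apply, ha' v hv]

/-- The edge set `A` connects all cycles of `σ`. -/
def Conn (σ : Equiv.Perm V) (m : V → V) (A : Finset V) : Prop :=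
  ∀ X : Set V, (∀ v, σ v ∈ X ↔ v ∈ X) → (∀ v ∈ A, m v ∈ X ↔ v ∈ X) → X.Nonempty → X = Set.univ

variable [Fintype V] [DecidableEq V] {σ : Equiv.Perm V} {m : V → V}

omit [Fintype V] [DecidableEq V] in
lemma Zs_anti {I J : Finset V} (h : I ⊆ J) : Zs σ m J ≤ Zs σ m I :=
  fun _ hg => ⟨hg.1, fun v hv => hg.2 v (h hv)⟩

omit [DecidableEq V] in
lemma kap_anti (I J : Finset V) (h : I ⊆ J) :
    finrank (ZMod 2) (Zs σ m J) ≤ finrank (ZMod 2) (Zs σ m I) :=
  Submodule.finrank_mono (Zs_anti h)

lemma kap_sup (I J : Finset V) :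
    finrank (ZMod 2) (Zs σ m I) + finrank (ZMod 2) (Zs σ m J) ≤
      finrank (ZMod 2) (Zs σ m (I ∪ J)) + finrank (ZMod 2) (Zs σ m (I ∩ J)) := by
  have h := Submodule.finrank_sup_add_finrank_inf_eq (Zs σ m I) (Zs σ m J)
  have h1 : Zs σ m I ⊓ Zs σ m J = Zs σ m (I ∪ J) := by
    apply le_antisymm
    · rintro g ⟨hg, hg'⟩
      refine ⟨hg.1, fun v hv => ?_⟩
      rcases Finset.mem_union.mp hv with hv | hv
      · exact hg.2 v hv
      · exact hg'.2 v hv
    · exact le_inf (Zs_anti Finset.subset_union_left) (Zs_anti Finset.subset_union_right)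
  have h2 : finrank (ZMod 2) ↥(Zs σ m I ⊔ Zs σ m J) ≤ finrank (ZMod 2) (Zs σ m (I ∩ J)) :=
    Submodule.finrank_mono
      (sup_le (Zs_anti Finset.inter_subset_left) (Zs_anti Finset.inter_subset_right))
  rw [h1] at h
  omega

/-- Two vertices which are not separated by the functions in `Zs σ m I`. -/
def cls (σ : Equiv.Perm V) (m : V → V) (I : Finset V) : Setoid V where
  r u v := ∀ g ∈ Zs σ m I, g u = g v
  iseqv := ⟨fun _ _ _ => rfl, fun h g hg => (h g hg).symm, fun h h' g hg => (h g hg).trans (h' g hg)⟩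

omit [DecidableEq V] in
lemma kap_le (I : Finset V) [Fintype (Quotient (cls σ m I))] :
    finrank (ZMod 2) (Zs σ m I) ≤ Fintype.card (Quotient (cls σ m I)) := by
  have h : finrank (ZMod 2) (Quotient (cls σ m I) → ZMod 2) =
      Fintype.card (Quotient (cls σ m I)) := Module.finrank_fintype_fun_eq_card _
  rw [← h]
  let f : (Zs σ m I) →ₗ[ZMod 2] (Quotient (cls σ m I) → ZMod 2) :=
    { toFun := fun g q => g.1 q.out
      map_add' := fun _ _ => rfl
      map_smul' := fun _ _ => rfl }
  refine LinearMap.finrank_le_finrank_of_injective (f := f) ?_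
  rw [injective_iff_map_eq_zero]
  intro g hg
  ext v
  have h1 : g.1 (Quotient.out (Quotient.mk (cls σ m I) v)) = 0 := congrFun hg _
  have h2 : (cls σ m I) (Quotient.out (Quotient.mk (cls σ m I) v)) v := Quotient.mk_out v
  have h3 := h2 g.1 g.2
  rw [← h3, h1]
  rfl

lemma card_dart (hm : ∀ v, m (m v) = v) (E : Finset V) (hE : ∀ v, v ∈ E ↔ m v ∉ E)
    (P : V → Prop) [DecidablePred P] (hP : ∀ v, P (m v) ↔ P v) :
    (Finset.univ.filter P).card = 2 * (E.filter P).card := by
  have h1 : (Finset.univ.filter P) = E.filter P ∪ (Finset.univ.filter (fun v => P v ∧ v ∉ E)) := by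
    ext v
    simp only [Finset.mem_filter, Finset.mem_univ, true_and, Finset.mem_union]
    tauto
  have h2 : (Finset.univ.filter (fun v => P v ∧ v ∉ E)).card = (E.filter P).card := by
    refine Finset.card_bij' (fun v _ => m v) (fun v _ => m v) ?_ ?_ ?_ ?_
    · intro v hv
      simp only [Finset.mem_filter, Finset.mem_univ, true_and] at hv ⊢
      refine ⟨?_, (hP v).mpr hv.1⟩
      have := hE (m v)
      rw [hm] at this
      exact this.mpr hv.2
    · intro v hv
      simp only [Finset.mem_filter, Finset.mem_univ, true_and] at hv ⊢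
      exact ⟨(hP v).mpr hv.2, (hE v).mp hv.1⟩
    · intro v _
      exact hm v
    · intro v _
      exact hm v
  rw [h1, Finset.card_union_of_disjoint, h2, two_mul]
  rw [Finset.disjoint_left]
  intro v hv hv'
  simp only [Finset.mem_filter, Finset.mem_univ, true_and] at hv hv'
  exact hv'.2 hv.1

lemma start_cond (hm : ∀ v, m (m v) = v) (E : Finset V) (hE : ∀ v, v ∈ E ↔ m v ∉ E)
    (hcut : ∀ X : Finset V, (∀ v, σ v ∈ X ↔ v ∈ X) → X.Nonempty → X ≠ Finset.univ →
      4 ≤ (X.filter (fun v => m v ∉ X)).card) (I : Finset V) :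
    finrank (ZMod 2) (Zs σ m I) ≤ 1 ∨ 2 * finrank (ZMod 2) (Zs σ m I) ≤ (E \ I).card := by
  classical
  have hle := kap_le (σ := σ) (m := m) I
  rcases Nat.lt_or_ge (Fintype.card (Quotient (cls σ m I))) 2 with hc | hc
  · omega
  have hσ : ∀ v, (cls σ m I) (σ v) v := fun v g hg => hg.1 v
  have hq : ∀ q : Quotient (cls σ m I),
      4 ≤ ((Finset.univ.filter (fun v => ¬ (cls σ m I) (m v) v)).filter
        (fun v => Quotient.mk (cls σ m I) v = q)).card := by
    intro q
    have h := hcut (Finset.univ.filter (fun v => Quotient.mk (cls σ m I) v = q)) ?_ ?_ ?_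
    · refine h.trans (Finset.card_le_card ?_)
      intro v hv
      simp only [Finset.mem_filter, Finset.mem_univ, true_and] at hv ⊢
      refine ⟨fun hh => hv.2 ?_, hv.1⟩
      rw [← hv.1]
      exact Quotient.sound hh
    · intro v
      simp only [Finset.mem_filter, Finset.mem_univ, true_and]
      rw [Quotient.sound (hσ v)]
    · exact ⟨q.out, by simp⟩
    · intro hu
      have : ∀ q' : Quotient (cls σ m I), q' = q := by
        intro q'
        have h1 := Finset.mem_univ q'.out
        rw [← hu] at h1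
        simpa using h1
      have : Fintype.card (Quotient (cls σ m I)) ≤ 1 :=
        Fintype.card_le_one_iff.mpr fun a b => (this a).trans (this b).symm
      omega
  have hsum : (Finset.univ.filter (fun v => ¬ (cls σ m I) (m v) v)).card =
      ∑ q : Quotient (cls σ m I), ((Finset.univ.filter (fun v => ¬ (cls σ m I) (m v) v)).filter
        (fun v => Quotient.mk (cls σ m I) v = q)).card :=
    Finset.card_eq_sum_card_fiberwise (fun v _ => Finset.mem_coe.mpr (Finset.mem_univ _))
  have h4 : 4 * Fintype.card (Quotient (cls σ m I)) ≤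
      (Finset.univ.filter (fun v => ¬ (cls σ m I) (m v) v)).card := by
    rw [hsum, mul_comm, ← smul_eq_mul, ← Finset.card_univ, ← Finset.sum_const]
    exact Finset.sum_le_sum fun q _ => hq q
  have hd := card_dart hm E hE (fun v => ¬ (cls σ m I) (m v) v) (by
    intro v
    rw [hm]
    exact not_congr ⟨fun h => (cls σ m I).symm h, fun h => (cls σ m I).symm h⟩)
  have hsub : (E.filter (fun v => ¬ (cls σ m I) (m v) v)).card ≤ (E \ I).card := by
    refine Finset.card_le_card fun v hv => ?_
    simp only [Finset.mem_filter, Finset.mem_sdiff] at hv ⊢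
    refine ⟨hv.1, fun hvI => hv.2 ?_⟩
    exact fun g hg => hg.2 v hvI
  omega

omit [Fintype V] [DecidableEq V] in
lemma one_mem (I : Finset V) : (fun _ => 1 : V → ZMod 2) ∈ Zs σ m I :=
  ⟨fun _ => rfl, fun _ _ => rfl⟩

omit [DecidableEq V] in
lemma kap_pos [Nonempty V] (I : Finset V) : 1 ≤ finrank (ZMod 2) (Zs σ m I) := by
  have : Nontrivial (Zs σ m I) := by
    refine ⟨⟨(fun _ => 1), one_mem I⟩, 0, fun h => ?_⟩
    have h1 := congrFun (congrArg Subtype.val h) (Classical.arbitrary V)
    exact one_ne_zero h1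
  exact Nat.one_le_iff_ne_zero.mpr (Module.finrank_pos).ne'

omit [DecidableEq V] in
lemma conn_of_kap [Nonempty V] {A : Finset V} (h : finrank (ZMod 2) (Zs σ m A) ≤ 1) :
    Conn σ m A := by
  classical
  intro X hσ hX hne
  have h1 : finrank (ZMod 2) (Zs σ m A) = 1 := le_antisymm h (kap_pos A)
  have hz : (⟨(fun _ => 1), one_mem A⟩ : Zs σ m A) ≠ 0 := by
    intro hh
    have h1 := congrFun (congrArg Subtype.val hh) (Classical.arbitrary V)
    exact one_ne_zero h1
  have hg : (fun v => if v ∈ X then (1 : ZMod 2) else 0) ∈ Zs σ m A := by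
    refine ⟨fun v => ?_, fun v hv => ?_⟩
    · simp only [hσ v]
    · simp only [hX v hv]
  obtain ⟨c, hc⟩ := (finrank_eq_one_iff_of_nonzero' _ hz).mp h1 ⟨_, hg⟩
  obtain ⟨x, hx⟩ := hne
  have hcx := congrFun (congrArg Subtype.val hc) x
  simp only [hx, if_true] at hcx
  have hc1 : c = 1 := by
    have : c * 1 = 1 := hcx
    simpa using this
  subst hc1
  ext v
  simp only [Set.mem_univ, iff_true]
  by_contra hv
  have hcv := congrFun (congrArg Subtype.val hc) v
  simp only [hv, if_false] at hcv
  have : (1 : ZMod 2) * 1 = 0 := hcv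
  rw [mul_one] at this
  exact one_ne_zero this

/-- Two disjoint connected spanning edge sets, the second of which misses `e` and `f`. -/
theorem two_conn [Nonempty V] (hm : ∀ v, m (m v) = v) (E : Finset V) (hE : ∀ v, v ∈ E ↔ m v ∉ E)
    (hcut : ∀ X : Finset V, (∀ v, σ v ∈ X ↔ v ∈ X) → X.Nonempty → X ≠ Finset.univ →
      4 ≤ (X.filter (fun v => m v ∉ X)).card) (e f : V) (he : e ∈ E) :
    ∃ A B : Finset V, A ⊆ E ∧ B ⊆ E ∧ e ∉ B ∧ f ∉ B ∧ Disjoint A B ∧ Conn σ m A ∧
      Conn σ m B := by
  obtain ⟨A, B, hA', -, hA, hB, hd, hk⟩ := pack (fun I => finrank (ZMod 2) (Zs σ m I))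
    kap_anti kap_sup ((E.erase e).erase f) {e} ∅ (by simp) (by simp) (by simp) (fun I hI => by
      have h1 := start_cond (σ := σ) hm E hE hcut I
      have h2 : finrank (ZMod 2) (Zs σ m (I ∪ {e})) ≤ finrank (ZMod 2) (Zs σ m I) :=
        kap_anti _ _ Finset.subset_union_left
      have h3 : (E \ I).card ≤ (((E.erase e).erase f) \ I).card + 2 := by
        have : E \ I ⊆ insert e (insert f (((E.erase e).erase f) \ I)) := by
          intro x hx
          simp only [Finset.mem_sdiff, Finset.mem_insert, Finset.mem_erase] at hx ⊢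
          tauto
        refine (Finset.card_le_card this).trans ?_
        refine (Finset.card_insert_le _ _).trans ?_
        have := Finset.card_insert_le f (((E.erase e).erase f) \ I)
        omega
      rw [show I ∪ ∅ = I from Finset.union_empty I]
      omega)
  have h1 := kap_pos (σ := σ) (m := m) A
  have h2 := kap_pos (σ := σ) (m := m) B
  have hBs : B ⊆ (E.erase e).erase f := by simpa using hB
  have hAs : A ⊆ E := by
    refine hA.trans (Finset.union_subset (Finset.singleton_subset_iff.mpr he) ?_)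
    exact (Finset.erase_subset _ _).trans (Finset.erase_subset _ _)
  refine ⟨A, B, hAs, hBs.trans ((Finset.erase_subset _ _).trans (Finset.erase_subset _ _)),
    fun h => ?_, fun h => ?_, hd, conn_of_kap (by omega), conn_of_kap (by omega)⟩
  · have := hBs h
    simp at this
  · have := hBs h
    simp at this

end Pool.Agent.H30.Jg
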