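import Pool.Agent.H30.Jg.Base

set_option autoImplicit false
set_option linter.unusedSimpArgs false

/-!
The cycle which misses at most one vertex of each cycle of the 2-factor.
-/

namespace Pool.Agent.H30.Jg

variable {V : Type*} [Fintype V] [DecidableEq V]

/-- The conclusion. -/
def Concl (G : SimpleGraph V) (σ : Equiv.Perm V) (e f : Sym2 V) : Prop :=
  ∃ (u : V) (c : G.Walk u u), c.IsCycle ∧ e ∈ c.edges ∧ f ∈ c.edges ∧
    (∀ v w, v ∉ c.support → w ∉ c.support → σ.SameCycle v w → v = w)

/-- The case of one cycle. -/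
theorem one_block (G : SimpleGraph V) [DecidableRel G.Adj] [Nonempty V]
    (hreg : G.IsRegularOfDegree 3)
    (σ : Equiv.Perm V) (m : V → V) (hm : ∀ v, m (m v) = v) (hm0 : ∀ v, m v ≠ v)
    (E : Finset V) (hE : ∀ v, v ∈ E ↔ m v ∉ E) (h5 : ∀ v, blk σ v ≤ 5)
    (hone : ∀ v w, σ.SameCycle v w) (p q : V) :
    Concl G σ s(p, m p) s(q, m q) := by
  have hcard5 : Fintype.card V ≤ 5 := by
    have := h5 p
    rw [blk] at this
    refine le_trans ?_ this
    rw [← Finset.card_univ]
    refine Finset.card_le_card fun w _ => ?_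
    simp [hone p w]
  have hev := card_dart hm E hE (fun _ => True) (fun _ => Iff.rfl)
  rw [Finset.filter_true_of_mem (fun _ _ => trivial), Finset.card_univ] at hev
  have hsub : ∀ v, G.neighborFinset v ⊆ Finset.univ.erase v := by
    intro v w hw
    rw [SimpleGraph.mem_neighborFinset] at hw
    exact Finset.mem_erase.mpr ⟨hw.ne.symm, Finset.mem_univ _⟩
  have hc : ∀ v : V, (Finset.univ.erase v).card = Fintype.card V - 1 := by
    intro v
    rw [Finset.card_erase_of_mem (Finset.mem_univ v), Finset.card_univ]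
  have hge : 3 ≤ Fintype.card V - 1 := by
    rw [← hc p]
    exact (hreg p).symm.le.trans (Finset.card_le_card (hsub p))
  have h4 : Fintype.card V = 4 := by omega
  have hadj : ∀ v w, v ≠ w → G.Adj v w := by
    intro v w hvw
    have heq : G.neighborFinset v = Finset.univ.erase v :=
      Finset.eq_of_subset_of_card_le (hsub v) (by
        rw [hc v, h4]
        exact (hreg v).symm.le)
    rw [← SimpleGraph.mem_neighborFinset, heq]
    exact Finset.mem_erase.mpr ⟨hvw.symm, Finset.mem_univ _⟩
  obtain ⟨z, hz⟩ : ∃ z, z ∉ ({p, m p} : Finset V) := by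
    by_contra hcon
    push Not at hcon
    have h1 : (Finset.univ : Finset V) ⊆ {p, m p} := fun v _ => hcon v
    have h2 := Finset.card_le_card h1
    rw [Finset.card_univ, h4] at h2
    have h3 : ({p, m p} : Finset V).card ≤ 2 := Finset.card_le_two
    omega
  simp only [Finset.mem_insert, Finset.mem_singleton, not_or] at hz
  obtain ⟨hzp, hzmp⟩ := hz
  have n1 : m z ≠ p := fun hh => hzmp (by rw [← hh, hm])
  have n2 : m z ≠ m p := fun hh => hzp (by rw [← hm z, hh, hm])
  have n3 := hm0 z
  have n4 := hm0 p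
  have hcd : ({p, m p, z, m z} : Finset V).card = 4 := by
    rw [Finset.card_insert_of_notMem, Finset.card_insert_of_notMem, Finset.card_insert_of_notMem,
      Finset.card_singleton]
    · simpa using n3.symm
    · simp [Ne.symm hzmp, n2.symm]
    · simp [n4.symm, Ne.symm hzp, n1.symm]
  have huniv : ({p, m p, z, m z} : Finset V) = Finset.univ := by
    apply Finset.eq_univ_of_card
    rw [hcd, h4]
  have hall : ∀ v, v = p ∨ v = m p ∨ v = z ∨ v = m z := by
    intro v
    have := Finset.mem_univ v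
    rw [← huniv] at this
    simpa using this
  let c : G.Walk p p := .cons (hadj p (m p) n4.symm) (.cons (hadj (m p) z (Ne.symm hzmp))
    (.cons (hadj z (m z) n3.symm) (.cons (hadj (m z) p n1) .nil)))
  have hedges : c.edges = [s(p, m p), s(m p, z), s(z, m z), s(m z, p)] := rfl
  have hsupp : c.support = [p, m p, z, m z, p] := rfl
  refine ⟨p, c, ?_, ?_, ?_, ?_⟩
  · rw [SimpleGraph.Walk.cons_isCycle_iff]
    constructor
    · rw [SimpleGraph.Walk.isPath_def]
      simp [SimpleGraph.Walk.support_cons, n1, n2, n3, n4, hzp, hzmp, n1.symm, n2.symm, n3.symm,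
        n4.symm, Ne.symm hzp, Ne.symm hzmp]
    · simp [SimpleGraph.Walk.edges_cons, n1, n2, n3, n4, hzp, hzmp, n1.symm, n2.symm, n3.symm,
        n4.symm, Ne.symm hzp, Ne.symm hzmp]
  · rw [hedges]
    simp
  · rw [hedges]
    rcases hall q with rfl | rfl | rfl | rfl
    · simp
    · rw [hm, Sym2.eq_swap]
      simp
    · simp
    · rw [hm, Sym2.eq_swap]
      simp
  · intro v w hv
    exfalso
    apply hv
    rw [hsupp]
    rcases hall v with h | h | h | h <;> simp [h]

lemma bool_aux : ∀ x y r : ZMod 2, 1 + r = x + y →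
    (r = 0 ↔ decide (x = 1) ≠ decide (y = 1)) := by decide

lemma T_card (σ : Equiv.Perm V) (r : V → ZMod 2) (w : V) :
    T σ (1 + r) w = ((Sblk σ (Finset.univ.filter (fun v => r v = 0)) w).card : ZMod 2) := by
  classical
  change (∑ v, if σ.SameCycle w v then (1 + r) v else 0) = _
  rw [Sblk, Finset.card_filter, Nat.cast_sum]
  refine Finset.sum_congr rfl fun v _ => ?_
  have h : ∀ x : ZMod 2, 1 + x = if x = 0 then 1 else 0 := by decide
  by_cases h1 : σ.SameCycle w v
  · simp only [h1, if_true, true_and, Finset.mem_filter, Finset.mem_univ, Pi.add_apply,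
      Pi.one_apply, h]
    split_ifs <;> simp
  · simp [h1]

/-- The case of several cycles. -/
theorem many_blocks (G : SimpleGraph V) [DecidableRel G.Adj] [Nonempty V]
    (σ : Equiv.Perm V) (hσ : ∀ v, G.Adj v (σ v)) (h2 : ∀ v, σ (σ v) ≠ v)
    (m : V → V) (hm : ∀ v, m (m v) = v)
    (hG : ∀ v w, G.Adj v w ↔ w = σ v ∨ w = σ.symm v ∨ w = m v)
    (hm1 : ∀ v, m v ≠ σ v) (hm2 : ∀ v, m v ≠ σ.symm v)
    (E : Finset V) (hE : ∀ v, v ∈ E ↔ m v ∉ E) (h5 : ∀ v, blk σ v ≤ 5)
    (hcut : ∀ X : Finset V, (∀ v, σ v ∈ X ↔ v ∈ X) → X.Nonempty → X ≠ Finset.univ →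
      4 ≤ (X.filter (fun v => m v ∉ X)).card)
    (hmany : ∃ v w, ¬ σ.SameCycle v w) (p q : V) (hp : p ∈ E) (hq : q ∈ E) :
    Concl G σ s(p, m p) s(q, m q) := by
  classical
  have hm0 : ∀ v, m v ≠ v := fun v hh => by
    have := hE v
    rw [hh] at this
    tauto
  have hmσ : ∀ v, ¬ σ.SameCycle v (m v) := by
    intro v hv
    have hX := hcut (Finset.univ.filter (fun w => σ.SameCycle v w)) (fun w => by simp)
      ⟨v, by simp [Equiv.Perm.SameCycle.refl]⟩ (by
        intro hu
        obtain ⟨x, y, hxy⟩ := hmany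
        have h1 : ∀ z, σ.SameCycle v z := by
          intro z
          have := Finset.mem_univ z
          rw [← hu] at this
          simpa using this
        exact hxy ((h1 x).symm.trans (h1 y)))
    have h5v := h5 v
    have hsub : (Finset.univ.filter (fun w => σ.SameCycle v w)).filter
        (fun w => m w ∉ Finset.univ.filter (fun w => σ.SameCycle v w)) ⊆
        ((Finset.univ.filter (fun w => σ.SameCycle v w)).erase v).erase (m v) := by
      intro w hw
      simp only [Finset.mem_filter, Finset.mem_univ, true_and, Finset.mem_erase] at hw ⊢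
      refine ⟨?_, ?_, hw.1⟩
      · rintro rfl
        rw [hm] at hw
        exact hw.2 (Equiv.Perm.SameCycle.refl _ _)
      · rintro rfl
        exact hw.2 hv
    have h3 := Finset.card_le_card hsub
    rw [Finset.card_erase_of_mem, Finset.card_erase_of_mem] at h3
    · have : (Finset.univ.filter (fun w => σ.SameCycle v w)).card ≤ 5 := by
        rw [blk] at h5v
        exact (Finset.card_le_card (fun w hw => by simpa using hw)).trans h5v
      omega
    · simp [Equiv.Perm.SameCycle.refl]
    · simp [hv, hm0 v]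
  obtain ⟨A, B, hAE, hBE, hpB, hqB, hAB, hA, hB⟩ := two_conn hm E hE hcut p q hp
  have hcardV : (Fintype.card V : ZMod 2) = 0 := by
    have hev := card_dart hm E hE (fun _ => True) (fun _ => Iff.rfl)
    rw [Finset.filter_true_of_mem (fun _ _ => trivial), Finset.card_univ] at hev
    rw [hev]
    push_cast
    rw [show (2 : ZMod 2) = 0 from rfl, zero_mul]
  obtain ⟨r, hr, hTr⟩ := join hm hcardV hB
  have hTs : T σ (1 + r) = 0 := by rw [map_add, hTr, two_zero]
  obtain ⟨a0, ha0⟩ := state (1 + r) hTs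
  set S : Finset V := Finset.univ.filter (fun v => r v = 0) with hSdef
  have hmemS : ∀ v, v ∈ S ↔ r v = 0 := fun v => by simp [hSdef]
  have hctx : Ctx σ m S :=
    { hm := hm
      hS := fun v => by rw [hmemS, hmemS, hr.1 v]
      h2 := h2
      h1 := fun v => (hσ v).ne.symm
      m0 := hm0
      m1 := hm1
      m2 := hm2 }
  have hnotB : ∀ v ∈ E, v ∉ B → v ∈ S := by
    intro v hv hvB
    rw [hmemS]
    exact hr.2 v hvB (fun hh => ((hE v).mp hv) (hBE hh))
  have hcomp : Comp σ S (fun v => decide (a0 v = 1)) := by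
    intro v
    rw [hmemS]
    exact bool_aux _ _ _ (ha0 v)
  have hconnS : Conn σ m S := by
    intro X hX hXS hne
    exact hA X hX (fun v hv => hXS v (hnotB v (hAE hv) (Finset.disjoint_left.mp hAB hv))) hne
  have hSne : ∀ w, (Sblk σ S w).Nonempty := by
    intro w
    by_contra hcon
    rw [Finset.not_nonempty_iff_eq_empty] at hcon
    have hno : ∀ v ∈ S, ¬ σ.SameCycle w v := by
      intro v hv hwv
      have : v ∈ Sblk σ S w := by simp [Sblk, hv, hwv]
      rw [hcon] at this
      simp at this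
    have := hconnS {u | σ.SameCycle w u} (fun v => by simp) (fun v hv => by
      simp only [Set.mem_ofPred_eq]
      exact iff_of_false (hno _ ((hctx.hS v).mpr hv)) (hno v hv))
      ⟨w, Equiv.Perm.SameCycle.refl _ _⟩
    have hmem : m w ∈ {u | σ.SameCycle w u} := by
      rw [this]
      exact Set.mem_univ _
    exact hmσ w hmem
  have hSev : ∀ w, 2 ∣ (Sblk σ S w).card := by
    intro w
    rw [← CharP.cast_eq_zero_iff (ZMod 2) 2, ← T_card, hTs]
    rfl
  have hS2 : ∀ w, 2 ≤ (Sblk σ S w).card := by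
    intro w
    have h1 := hSev w
    have h3 := (hSne w).card_pos
    omega
  have hS4 : ∀ w, (Sblk σ S w).card ≤ 4 := by
    intro w
    have h1 := hSev w
    have h3 := unc_le (σ := σ) (S := S) (fun _ => true) w
    have h4 := h5 w
    omega
  have hpS : p ∈ S := hnotB p hp hpB
  have hqS : q ∈ S := hnotB q hq hqB
  obtain ⟨a, ha, hunc, hreach⟩ := all_reach hctx hconnS hmσ h5 hS2 hS4 hcomp hpS
  obtain ⟨c, hc, hsupp, hedge⟩ := cycle_of hctx ha (s := p) ⟨m p, Or.inl ⟨hpS, rfl⟩⟩ (by
    intro v hv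
    obtain ⟨w, hw⟩ := hSne v
    simp only [Sblk, Finset.mem_filter, Finset.mem_univ, true_and] at hw
    obtain ⟨i, -, hi⟩ := hw.1.exists_pow_eq'
    obtain ⟨w', hw', hrw'⟩ := reach_S hctx ha hv (i := i) (by rw [hi]; exact hw.2)
    exact (hreach w' hw').trans hrw'.symm)
  have hle : H hctx a ≤ G := by
    intro v w hvw
    rcases hvw with ⟨_, rfl⟩ | ⟨_, rfl⟩ | ⟨_, rfl⟩
    · exact (hG v _).mpr (Or.inr (Or.inr rfl))
    · exact hσ v
    · exact (hσ w).symm
  refine ⟨p, c.mapLe hle, hc.mapLe hle, ?_, ?_, ?_⟩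
  · rw [SimpleGraph.Walk.edges_mapLe_eq_edges]
    exact hedge p hpS
  · rw [SimpleGraph.Walk.edges_mapLe_eq_edges]
    exact hedge q hqS
  · intro v w hv hw hvw
    rw [SimpleGraph.Walk.support_mapLe_eq_support, hsupp, not_or] at hv hw
    have h1 := hunc v
    rw [unc, Finset.card_le_one] at h1
    refine h1 v ?_ w ?_
    · simp only [Finset.mem_filter, Finset.mem_univ, true_and]
      exact ⟨Equiv.Perm.SameCycle.refl _ _, hv.1, by simpa using hv.2⟩
    · simp only [Finset.mem_filter, Finset.mem_univ, true_and]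
      exact ⟨hvw, hw.1, by simpa using hw.2⟩

end Pool.Agent.H30.Jg
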