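import Pool.Agent.H30.Jg.HG

set_option autoImplicit false

/-!
Flipping the state on one cycle of `σ`.
-/

namespace Pool.Agent.H30.Jg

variable {V : Type*} {σ : Equiv.Perm V} {m : V → V} {S : Finset V}

open Classical in
/-- Flip the state on the cycle of `x`. -/
noncomputable def flip (σ : Equiv.Perm V) (x : V) (a : V → Bool) : V → Bool :=
  fun v => if σ.SameCycle x v then !(a v) else a v

lemma flip_of {x v : V} {a : V → Bool} (h : σ.SameCycle x v) : flip σ x a v = !(a v) := by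
  rw [flip, if_pos h]

lemma flip_of_not {x v : V} {a : V → Bool} (h : ¬ σ.SameCycle x v) : flip σ x a v = a v := by
  rw [flip, if_neg h]

lemma flip_comp (x : V) {a : V → Bool} (ha : Comp σ S a) : Comp σ S (flip σ x a) := by
  intro v
  rw [ha v]
  have : σ.SameCycle x (σ.symm v) ↔ σ.SameCycle x v := by
    have := @Equiv.Perm.sameCycle_apply_right _ σ x (σ.symm v)
    rw [Equiv.apply_symm_apply] at this
    exact this.symm
  by_cases hx : σ.SameCycle x v
  · rw [flip_of hx, flip_of (this.mpr hx)]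
    simp
  · rw [flip_of_not hx, flip_of_not (mt this.mp hx)]

/-- The graph of a state without the edges inside the cycle of `x`. -/
def Ho (h : Ctx σ m S) (a : V → Bool) (x : V) : SimpleGraph V where
  Adj v w := (H h a).Adj v w ∧ ¬ (σ.SameCycle x v ∧ σ.SameCycle x w)
  symm := ⟨fun _ _ hvw => ⟨hvw.1.symm, fun hh => hvw.2 ⟨hh.2, hh.1⟩⟩⟩
  loopless := ⟨fun _ hv => hv.1.ne rfl⟩

lemma Ho_le (h : Ctx σ m S) (a : V → Bool) (x : V) : Ho h a x ≤ H h a := fun _ _ hvw => hvw.1

lemma Ho_le_flip (h : Ctx σ m S) (a : V → Bool) (x : V) : Ho h a x ≤ H h (flip σ x a) := by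
  intro v w hvw
  obtain ⟨hadj, hn⟩ := hvw
  rcases hadj with ⟨hv, rfl⟩ | ⟨hv, rfl⟩ | ⟨hv, rfl⟩
  · exact Or.inl ⟨hv, rfl⟩
  · refine Or.inr (Or.inl ⟨?_, rfl⟩)
    rw [flip_of_not]
    · exact hv
    · intro hx
      exact hn ⟨hx, Equiv.Perm.sameCycle_apply_right.mpr hx⟩
  · refine Or.inr (Or.inr ⟨?_, rfl⟩)
    rw [flip_of_not]
    · exact hv
    · intro hx
      exact hn ⟨Equiv.Perm.sameCycle_apply_right.mpr hx, hx⟩

lemma enter (h : Ctx σ m S) {a : V → Bool} {x : V} {u v : V} (hadj : (H h a).Adj u v)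
    (hu : ¬ σ.SameCycle x u) (hv : σ.SameCycle x v) : v ∈ S ∧ u = m v := by
  rcases hadj with ⟨hS, rfl⟩ | ⟨_, rfl⟩ | ⟨_, rfl⟩
  · exact ⟨(h.hS u).mpr hS, (h.hm u).symm⟩
  · exact absurd (Equiv.Perm.sameCycle_apply_right.mp hv) hu
  · exact absurd (Equiv.Perm.sameCycle_apply_right.mpr hv) hu

lemma exit (h : Ctx σ m S) {a : V → Bool} {x : V} (K : SimpleGraph V) (hK : K ≤ H h a) {p q : V}
    (W : K.Walk p q) : ¬ σ.SameCycle x p → σ.SameCycle x q →
      ∃ w ∈ S, σ.SameCycle x w ∧ K.Adj (m w) w ∧ (Ho h a x).Reachable p w := by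
  induction W with
  | nil => exact fun h1 h2 => absurd h2 h1
  | @cons u v q hadj W ih =>
    intro hu hq
    have hHo : (Ho h a x).Adj u v := ⟨hK hadj, fun hh => hu hh.1⟩
    by_cases hv : σ.SameCycle x v
    · obtain ⟨hS, hm⟩ := enter h (hK hadj) hu hv
      refine ⟨v, hS, hv, ?_, hHo.reachable⟩
      rw [← hm]
      exact hadj
    · obtain ⟨w, hw, hw', hw'', hr⟩ := ih hv hq
      exact ⟨w, hw, hw', hw'', hHo.reachable.trans hr⟩

lemma exit' (h : Ctx σ m S) {a : V → Bool} {x : V} {p q : V}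
    (hr : (H h a).Reachable p q) (hp : p ∈ S) : (Ho h a x).Reachable p q ∨
      ∃ w ∈ S, σ.SameCycle x w ∧ (Ho h a x).Reachable p w := by
  by_cases hpx : σ.SameCycle x p
  · exact Or.inr ⟨p, hp, hpx, SimpleGraph.Reachable.refl _⟩
  obtain ⟨W⟩ := hr
  clear hp
  induction W with
  | nil => exact Or.inl (SimpleGraph.Reachable.refl _)
  | @cons u v q hadj W ih =>
    have hHo : (Ho h a x).Adj u v := ⟨hadj, fun hh => hpx hh.1⟩
    by_cases hv : σ.SameCycle x v
    · obtain ⟨hS, hm⟩ := enter h hadj hpx hv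
      exact Or.inr ⟨v, hS, hv, hHo.reachable⟩
    · rcases ih hv with hr | ⟨w, hw, hw', hr⟩
      · exact Or.inl (hHo.reachable.trans hr)
      · exact Or.inr ⟨w, hw, hw', hHo.reachable.trans hr⟩

lemma partner [Finite V] (h : Ctx σ m S) (hmσ : ∀ v, ¬ σ.SameCycle v (m v)) {a : V → Bool}
    (ha : Comp σ S a) {x u : V} (hu : u ∈ S) (hxu : σ.SameCycle x u) :
    ∃ w ∈ S, σ.SameCycle x w ∧ w ≠ u ∧ (Ho h a x).Reachable u w := by
  have hadj : (H h a).Adj u (m u) := Or.inl ⟨hu, rfl⟩
  have hr := (H_isCycles h ha).reachable_deleteEdges hadj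
  obtain ⟨W⟩ := hr.symm
  have hmu : ¬ σ.SameCycle x (m u) := fun hh => hmσ u (hxu.symm.trans hh)
  obtain ⟨w, hw, hw', hK, hr⟩ := exit h _ (SimpleGraph.deleteEdges_le _) W hmu hxu
  refine ⟨w, hw, hw', ?_, ?_⟩
  · rintro rfl
    rw [SimpleGraph.deleteEdges_adj] at hK
    apply hK.2
    rw [Sym2.eq_swap]
    exact Set.mem_singleton _
  · have hHo : (Ho h a x).Adj u (m u) := ⟨hadj, fun hh => hmu hh.2⟩
    exact hHo.reachable.trans hr

lemma cross (h : Ctx σ m S) {a : V → Bool} (ha : Comp σ S a) {s x y : V} (hx : x ∈ S)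
    (hy : y ∈ S) {k : ℕ} (hk : (σ ^ k) x = y) (hrx : (H h a).Reachable s x)
    (hry : ¬ (H h a).Reachable s y) :
    ∃ w w', w ∈ S ∧ w' ∈ S ∧ σ.SameCycle x w ∧ σ.SameCycle x w' ∧ (H h a).Reachable s w ∧
      ¬ (H h a).Reachable s w' ∧ (H h (flip σ x a)).Reachable w w' := by
  by_contra hno
  push Not at hno
  have hno' : ∀ w w', w ∈ S → w' ∈ S → σ.SameCycle x w → σ.SameCycle x w' →
      (H h a).Reachable s w → (H h (flip σ x a)).Reachable w w' → (H h a).Reachable s w' := by
    intro w w' h1 h2 h3 h4 h5 h6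
    by_contra h7
    exact hno w w' h1 h2 h3 h4 h5 h7 h6
  have key : ∀ i : ℕ, ((σ ^ i) x ∈ S → (H h a).Reachable s ((σ ^ i) x)) ∧
      ∃ w ∈ S, σ.SameCycle x w ∧ (H h a).Reachable s w ∧
        ((a ((σ ^ i) x) = true ∧ (H h a).Reachable w ((σ ^ i) x)) ∨
          (a ((σ ^ i) x) = false ∧ (H h (flip σ x a)).Reachable w ((σ ^ i) x))) := by
    intro i
    induction i with
    | zero =>
      simp only [pow_zero, Equiv.Perm.one_apply]
      refine ⟨fun _ => hrx, x, hx, Equiv.Perm.SameCycle.refl _ _, hrx, ?_⟩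
      rcases Bool.eq_false_or_eq_true (a x) with h1 | h1
      · exact Or.inl ⟨h1, SimpleGraph.Reachable.refl _⟩
      · exact Or.inr ⟨h1, SimpleGraph.Reachable.refl _⟩
    | succ i ih =>
      obtain ⟨-, w, hw, hxw, hrw, hcase⟩ := ih
      rw [pow_succ', Equiv.Perm.mul_apply]
      set v := (σ ^ i) x with hv
      have hxv : σ.SameCycle x v := ⟨i, by rw [zpow_natCast]⟩
      have hxv' : σ.SameCycle x (σ v) := Equiv.Perm.sameCycle_apply_right.mpr hxv
      have hnS : σ v ∉ S → a (σ v) = a v := by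
        intro hS
        have := mt (ha (σ v)).mpr hS
        rw [Equiv.symm_apply_apply] at this
        push Not at this
        exact this
      rcases hcase with ⟨hav, hr⟩ | ⟨hav, hr⟩
      · have hadj : (H h a).Adj v (σ v) := Or.inr (Or.inl ⟨hav, rfl⟩)
        have hr' := hr.trans hadj.reachable
        have hs' := hrw.trans hr'
        refine ⟨fun _ => hs', ?_⟩
        by_cases hS : σ v ∈ S
        · refine ⟨σ v, hS, hxv', hs', ?_⟩
          rcases Bool.eq_false_or_eq_true (a (σ v)) with h1 | h1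
          · exact Or.inl ⟨h1, SimpleGraph.Reachable.refl _⟩
          · exact Or.inr ⟨h1, SimpleGraph.Reachable.refl _⟩
        · exact ⟨w, hw, hxw, hrw, Or.inl ⟨by rw [hnS hS, hav], hr'⟩⟩
      · have hadj : (H h (flip σ x a)).Adj v (σ v) :=
          Or.inr (Or.inl ⟨by rw [flip_of hxv, hav]; rfl, rfl⟩)
        have hr' := hr.trans hadj.reachable
        by_cases hS : σ v ∈ S
        · have hs' := hno' w (σ v) hw hS hxw hxv' hrw hr'
          refine ⟨fun _ => hs', σ v, hS, hxv', hs', ?_⟩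
          rcases Bool.eq_false_or_eq_true (a (σ v)) with h1 | h1
          · exact Or.inl ⟨h1, SimpleGraph.Reachable.refl _⟩
          · exact Or.inr ⟨h1, SimpleGraph.Reachable.refl _⟩
        · exact ⟨fun hh => absurd hh hS, w, hw, hxw, hrw, Or.inr ⟨by rw [hnS hS, hav], hr'⟩⟩
  have := (key k).1
  rw [hk] at this
  exact hry (this hy)

/-- Flipping a mixed cycle of `σ` merges two components. -/
theorem merge [Fintype V] [DecidableEq V] (h : Ctx σ m S)
    (hmσ : ∀ v, ¬ σ.SameCycle v (m v)) {a : V → Bool}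
    (ha : Comp σ S a) {s x y : V} (hs : s ∈ S) (hx : x ∈ S) (hy : y ∈ S)
    (hxy : σ.SameCycle x y) (F : Finset V) (hF : ∀ w ∈ S, σ.SameCycle x w → w ∈ F)
    (hF4 : F.card ≤ 4) (hrx : (H h a).Reachable s x) (hry : ¬ (H h a).Reachable s y) :
    (∀ z ∈ S, (H h a).Reachable s z → (H h (flip σ x a)).Reachable s z) ∧
      (H h (flip σ x a)).Reachable s y ∧ F.card = 4 := by
  obtain ⟨x1, hx1, hxx1, hne1, hr1⟩ := partner h hmσ ha hx (Equiv.Perm.SameCycle.refl σ x)
  obtain ⟨y1, hy1, hxy1, hne2, hr2⟩ := partner h hmσ ha hy hxy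
  have hrx1 : (H h a).Reachable s x1 := hrx.trans (hr1.mono (Ho_le h a x))
  have hry1 : ¬ (H h a).Reachable s y1 := fun hh => hry (hh.trans (hr2.mono (Ho_le h a x)).symm)
  have n1 : x ≠ y := by rintro rfl; exact hry hrx
  have n2 : x ≠ y1 := by rintro rfl; exact hry1 hrx
  have n3 : x1 ≠ y := by rintro rfl; exact hry hrx1
  have n4 : x1 ≠ y1 := by rintro rfl; exact hry1 hrx1
  have hcard : ({x, x1, y, y1} : Finset V).card = 4 := by
    rw [Finset.card_insert_of_notMem, Finset.card_insert_of_notMem, Finset.card_insert_of_notMem,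
      Finset.card_singleton]
    · simpa using hne2.symm
    · simp [n3, n4]
    · simp [n1, n2, hne1.symm]
  have hsub : ({x, x1, y, y1} : Finset V) ⊆ F := by
    intro z hz
    simp only [Finset.mem_insert, Finset.mem_singleton] at hz
    rcases hz with rfl | rfl | rfl | rfl
    · exact hF _ hx (Equiv.Perm.SameCycle.refl σ _)
    · exact hF _ hx1 hxx1
    · exact hF _ hy hxy
    · exact hF _ hy1 hxy1
  have heq : ({x, x1, y, y1} : Finset V) = F := Finset.eq_of_subset_of_card_le hsub (by omega)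
  have hall : ∀ w ∈ S, σ.SameCycle x w → (Ho h a x).Reachable x w ∨ (Ho h a x).Reachable y w := by
    intro w hw hxw
    have := hF w hw hxw
    rw [← heq] at this
    simp only [Finset.mem_insert, Finset.mem_singleton] at this
    rcases this with rfl | rfl | rfl | rfl
    · exact Or.inl (SimpleGraph.Reachable.refl _)
    · exact Or.inl hr1
    · exact Or.inr (SimpleGraph.Reachable.refl _)
    · exact Or.inr hr2
  obtain ⟨k, -, hk⟩ := hxy.exists_pow_eq'
  obtain ⟨w, w', hw, hw', hxw, hxw', hrw, hrw', hww'⟩ := cross h ha hx hy hk hrx hry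
  have hmono : ∀ p q : V, (Ho h a x).Reachable p q → (H h (flip σ x a)).Reachable p q :=
    fun p q hh => hh.mono (Ho_le_flip h a x)
  have hmono' : ∀ p q : V, (Ho h a x).Reachable p q → (H h a).Reachable p q :=
    fun p q hh => hh.mono (Ho_le h a x)
  have hxw2 : (H h (flip σ x a)).Reachable x w := by
    rcases hall w hw hxw with hh | hh
    · exact hmono _ _ hh
    · exact absurd (hrw.trans (hmono' _ _ hh).symm) hry
  have hyw2 : (H h (flip σ x a)).Reachable y w' := by
    rcases hall w' hw' hxw' with hh | hh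
    · exact absurd (hrx.trans (hmono' _ _ hh)) hrw'
    · exact hmono _ _ hh
  have hxy2 : (H h (flip σ x a)).Reachable x y := (hxw2.trans hww').trans hyw2.symm
  have hall2 : ∀ w ∈ S, σ.SameCycle x w → (H h (flip σ x a)).Reachable x w := by
    intro w hw hxw
    rcases hall w hw hxw with hh | hh
    · exact hmono _ _ hh
    · exact hxy2.trans (hmono _ _ hh)
  have hz : ∀ z ∈ S, (H h a).Reachable s z → (H h (flip σ x a)).Reachable z x := by
    intro z hz hrz
    rcases exit' (x := x) h (hrz.symm.trans hrx) hz with hh | ⟨w, hw, hxw, hh⟩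
    · exact hmono _ _ hh
    · exact (hmono _ _ hh).trans (hall2 w hw hxw).symm
  have hsx := hz s hs (SimpleGraph.Reachable.refl _)
  exact ⟨fun z hzS hrz => hsx.trans (hz z hzS hrz).symm, hsx.trans hxy2, by rw [← heq, hcard]⟩

end Pool.Agent.H30.Jg
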