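import Pool.Agent.H30.Jg.Join

set_option autoImplicit false

/-!
The graph of a state.
-/

namespace Pool.Agent.H30.Jg

variable {V : Type*}

/-- The standing assumptions. -/
structure Ctx (σ : Equiv.Perm V) (m : V → V) (S : Finset V) : Prop where
  hm : ∀ v, m (m v) = v
  hS : ∀ v, m v ∈ S ↔ v ∈ S
  h2 : ∀ v, σ (σ v) ≠ v
  h1 : ∀ v, σ v ≠ v
  m0 : ∀ v, m v ≠ v
  m1 : ∀ v, m v ≠ σ v
  m2 : ∀ v, m v ≠ σ.symm v

/-- The state `a` is compatible with `S`. -/
def Comp (σ : Equiv.Perm V) (S : Finset V) (a : V → Bool) : Prop :=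
  ∀ v, v ∈ S ↔ a v ≠ a (σ.symm v)

variable {σ : Equiv.Perm V} {m : V → V} {S : Finset V}

/-- The graph of a state. -/
def H (h : Ctx σ m S) (a : V → Bool) : SimpleGraph V where
  Adj v w := (v ∈ S ∧ w = m v) ∨ (a v = true ∧ w = σ v) ∨ (a w = true ∧ v = σ w)
  symm := ⟨by
    rintro v w (⟨hv, rfl⟩ | ⟨ha, rfl⟩ | ⟨ha, rfl⟩)
    · exact Or.inl ⟨(h.hS v).mpr hv, (h.hm v).symm⟩
    · exact Or.inr (Or.inr ⟨ha, rfl⟩)
    · exact Or.inr (Or.inl ⟨ha, rfl⟩)⟩
  loopless := ⟨by
    rintro v (⟨_, hv⟩ | ⟨_, hv⟩ | ⟨_, hv⟩)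
    · exact h.m0 v hv.symm
    · exact h.h1 v hv.symm
    · exact h.h1 v hv.symm⟩

lemma H_adj (h : Ctx σ m S) (a : V → Bool) (v w : V) : (H h a).Adj v w ↔
    (v ∈ S ∧ w = m v) ∨ (a v = true ∧ w = σ v) ∨ (a w = true ∧ v = σ w) := Iff.rfl

lemma H_nbr (h : Ctx σ m S) (a : V → Bool) (v : V) : (H h a).neighborSet v =
    {w | (v ∈ S ∧ w = m v) ∨ (a v = true ∧ w = σ v) ∨ (a (σ.symm v) = true ∧ w = σ.symm v)} := by
  ext w
  rw [SimpleGraph.mem_neighborSet, H_adj]
  have : (a w = true ∧ v = σ w) ↔ (a (σ.symm v) = true ∧ w = σ.symm v) := by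
    constructor
    · rintro ⟨h1, rfl⟩
      rw [Equiv.symm_apply_apply]
      exact ⟨h1, rfl⟩
    · rintro ⟨h1, rfl⟩
      rw [Equiv.apply_symm_apply]
      exact ⟨h1, rfl⟩
  rw [this]
  rfl

lemma symm_ne (h : Ctx σ m S) (v : V) : σ v ≠ σ.symm v := by
  intro hh
  apply h.h2 v
  rw [hh, Equiv.apply_symm_apply]

/-- The graph of a state consists of cycles. -/
lemma H_isCycles (h : Ctx σ m S) {a : V → Bool} (ha : Comp σ S a) : (H h a).IsCycles := by
  intro v hv
  have hc := ha v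
  rw [H_nbr] at hv ⊢
  by_cases hS : v ∈ S
  · have hne := hc.mp hS
    rcases Bool.eq_false_or_eq_true (a v) with h1 | h1
    · have h2 : a (σ.symm v) = false := by
        rw [h1] at hne
        simpa using hne.symm
      have : {w | (v ∈ S ∧ w = m v) ∨ (a v = true ∧ w = σ v) ∨
          (a (σ.symm v) = true ∧ w = σ.symm v)} = {m v, σ v} := by
        ext w
        simp [hS, h1, h2]
      rw [this]
      exact Set.ncard_pair (h.m1 v)
    · have h2 : a (σ.symm v) = true := by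
        rw [h1] at hne
        simpa using hne.symm
      have : {w | (v ∈ S ∧ w = m v) ∨ (a v = true ∧ w = σ v) ∨
          (a (σ.symm v) = true ∧ w = σ.symm v)} = {m v, σ.symm v} := by
        ext w
        simp [hS, h1, h2]
      rw [this]
      exact Set.ncard_pair (h.m2 v)
  · have heq : a v = a (σ.symm v) := by
      by_contra hne
      exact hS (hc.mpr hne)
    rcases Bool.eq_false_or_eq_true (a v) with h1 | h1
    · have h2 : a (σ.symm v) = true := heq ▸ h1
      have : {w | (v ∈ S ∧ w = m v) ∨ (a v = true ∧ w = σ v) ∨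
          (a (σ.symm v) = true ∧ w = σ.symm v)} = {σ v, σ.symm v} := by
        ext w
        simp [hS, h1, h2]
      rw [this]
      exact Set.ncard_pair (symm_ne h v)
    · exfalso
      have h2 : a (σ.symm v) = false := heq ▸ h1
      obtain ⟨w, hw⟩ := hv
      simp [hS, h1, h2] at hw

/-- From every vertex on the graph one reaches `S` inside the cycle of `σ`. -/
lemma reach_S (h : Ctx σ m S) {a : V → Bool} (ha : Comp σ S a) {v : V} (hv : a v = true) {i : ℕ}
    (hi : (σ ^ i) v ∈ S) : ∃ w ∈ S, (H h a).Reachable v w := by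
  have key : ∀ j : ℕ, (∃ w ∈ S, (H h a).Reachable v w) ∨
      ((H h a).Reachable v ((σ ^ j) v) ∧ a ((σ ^ j) v) = true) := by
    intro j
    induction j with
    | zero => exact Or.inr ⟨by simp, by simpa using hv⟩
    | succ j ih =>
      rcases ih with ih | ⟨ih, ih'⟩
      · exact Or.inl ih
      · have hadj : (H h a).Adj ((σ ^ j) v) (σ ((σ ^ j) v)) := Or.inr (Or.inl ⟨ih', rfl⟩)
        have hr := ih.trans hadj.reachable
        rw [pow_succ', Equiv.Perm.mul_apply]
        by_cases hS : σ ((σ ^ j) v) ∈ S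
        · exact Or.inl ⟨_, hS, hr⟩
        · refine Or.inr ⟨hr, ?_⟩
          have := mt (ha (σ ((σ ^ j) v))).mpr hS
          rw [Equiv.symm_apply_apply] at this
          push Not at this
          rw [this, ih']
  rcases key i with hk | ⟨hk, -⟩
  · exact hk
  · exact ⟨_, hi, hk⟩

end Pool.Agent.H30.Jg
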