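import Pool.Agent.H30.Jg.Conn

set_option autoImplicit false

/-!
The parity join inside a connected edge set and the resulting state.
-/

namespace Pool.Agent.H30.Jg

variable {V : Type*} [Fintype V] [DecidableEq V]

open Classical in
/-- Sums over the cycles of `σ`. -/
noncomputable def T (σ : Equiv.Perm V) : (V → ZMod 2) →ₗ[ZMod 2] (V → ZMod 2) where
  toFun r w := ∑ v, if σ.SameCycle w v then r v else 0
  map_add' r r' := by
    ext w
    simp only [Pi.add_apply]
    rw [← Finset.sum_add_distrib]
    refine Finset.sum_congr rfl fun v _ => ?_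
    split_ifs <;> simp
  map_smul' c r := by
    ext w
    simp only [Pi.smul_apply, smul_eq_mul, RingHom.id_apply]
    rw [Finset.mul_sum]
    refine Finset.sum_congr rfl fun v _ => ?_
    split_ifs <;> simp

open Classical in
lemma T_single (σ : Equiv.Perm V) (v w : V) :
    T σ (Pi.single v 1) w = if σ.SameCycle w v then 1 else 0 := by
  change (∑ u, if σ.SameCycle w u then (Pi.single v 1 : V → ZMod 2) u else 0) = _
  rw [Finset.sum_eq_single v]
  · simp
  · intro u _ hu
    simp [Pi.single_eq_of_ne hu]
  · simp

/-- Functions supported on the edges in `B`. -/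
def Mb (m : V → V) (B : Finset V) : Submodule (ZMod 2) (V → ZMod 2) where
  carrier := {r | (∀ v, r (m v) = r v) ∧ ∀ v, v ∉ B → m v ∉ B → r v = 0}
  add_mem' := by
    rintro a b ⟨ha, ha'⟩ ⟨hb, hb'⟩
    refine ⟨fun v => ?_, fun v hv hv' => ?_⟩
    · simp only [Pi.add_apply, ha, hb]
    · simp only [Pi.add_apply, ha' v hv hv', hb' v hv hv', add_zero]
  zero_mem' := ⟨fun v => rfl, fun v _ _ => rfl⟩
  smul_mem' := by
    rintro c a ⟨ha, ha'⟩
    refine ⟨fun v => ?_, fun v hv hv' => ?_⟩
    · simp only [Pi.smul_apply, ha]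
    · simp only [Pi.smul_apply, ha' v hv hv', smul_zero]

omit [Fintype V] in
lemma edge_mem {m : V → V} (hm : ∀ v, m (m v) = v) {B : Finset V} {e : V} (he : e ∈ B) :
    (Pi.single e 1 + Pi.single (m e) 1 : V → ZMod 2) ∈ Mb m B := by
  refine ⟨fun v => ?_, fun v hv hv' => ?_⟩
  · have h1 : (Pi.single e 1 : V → ZMod 2) (m v) = (Pi.single (m e) 1 : V → ZMod 2) v := by
      by_cases h : v = m e
      · subst h
        rw [hm]
        simp
      · rw [Pi.single_eq_of_ne h, Pi.single_eq_of_ne]
        rintro rfl
        exact h (hm v).symm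
    have h2 : (Pi.single (m e) 1 : V → ZMod 2) (m v) = (Pi.single e 1 : V → ZMod 2) v := by
      by_cases h : v = e
      · subst h
        simp
      · rw [Pi.single_eq_of_ne h, Pi.single_eq_of_ne]
        intro h'
        exact h (by rw [← hm v, h', hm])
    rw [Pi.add_apply, Pi.add_apply, h1, h2, add_comm]
  · rw [Pi.add_apply, Pi.single_eq_of_ne, Pi.single_eq_of_ne, add_zero]
    · rintro rfl
      rw [hm] at hv'
      exact hv' he
    · rintro rfl
      exact hv he

omit [Fintype V] [DecidableEq V] in
lemma two_zero (f : V → ZMod 2) : f + f = 0 := by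
  ext v
  exact CharTwo.add_self_eq_zero (f v)

/-- The parity join. -/
theorem join {σ : Equiv.Perm V} {m : V → V} [Nonempty V] (hm : ∀ v, m (m v) = v) {B : Finset V}
    (hcard : (Fintype.card V : ZMod 2) = 0) (hB : Conn σ m B) :
    ∃ r ∈ Mb m B, T σ r = T σ 1 := by
  classical
  let v0 : V := Classical.arbitrary V
  have key : ∀ v, T σ (Pi.single v 1) + T σ (Pi.single v0 1) ∈ (Mb m B).map (T σ) := by
    have h := hB {v | T σ (Pi.single v 1) + T σ (Pi.single v0 1) ∈ (Mb m B).map (T σ)} ?_ ?_ ?_
    · intro v
      have := Set.mem_univ v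
      rw [← h] at this
      exact this
    · intro v
      have : T σ (Pi.single (σ v) 1) = T σ (Pi.single v 1) := by
        ext w
        rw [T_single, T_single]
        simp
      simp only [Set.mem_ofPred_eq, this]
    · intro v hv
      have h1 : T σ (Pi.single v 1 + Pi.single (m v) 1) ∈ (Mb m B).map (T σ) :=
        Submodule.mem_map_of_mem (edge_mem hm hv)
      rw [map_add] at h1
      simp only [Set.mem_ofPred_eq]
      constructor
      · intro h2
        have h3 := add_mem h1 h2
        have : T σ (Pi.single v 1) + T σ (Pi.single (m v) 1) +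
            (T σ (Pi.single (m v) 1) + T σ (Pi.single v0 1)) =
            T σ (Pi.single v 1) + T σ (Pi.single v0 1) := by
          rw [add_assoc, ← add_assoc (T σ (Pi.single (m v) 1)), two_zero, zero_add]
        rwa [this] at h3
      · intro h2
        have h3 := add_mem h1 h2
        have : T σ (Pi.single v 1) + T σ (Pi.single (m v) 1) +
            (T σ (Pi.single v 1) + T σ (Pi.single v0 1)) =
            T σ (Pi.single (m v) 1) + T σ (Pi.single v0 1) := by
          rw [add_comm (T σ (Pi.single v 1)) (T σ (Pi.single (m v) 1)), add_assoc,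
            ← add_assoc (T σ (Pi.single v 1)), two_zero, zero_add]
        rwa [this] at h3
    · refine ⟨v0, ?_⟩
      simp only [Set.mem_ofPred_eq, two_zero]
      exact zero_mem _
  have h1 : T σ 1 = ∑ v, (T σ (Pi.single v 1) + T σ (Pi.single v0 1)) := by
    rw [Finset.sum_add_distrib, Finset.sum_const, Finset.card_univ, ← map_sum,
      ← Nat.cast_smul_eq_nsmul (ZMod 2), hcard, zero_smul, add_zero]
    congr 1
    exact (Finset.univ_sum_single (1 : V → ZMod 2)).symm
  have h2 : T σ 1 ∈ (Mb m B).map (T σ) := by
    rw [h1]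
    exact sum_mem fun v _ => key v
  obtain ⟨r, hr, hr'⟩ := h2
  exact ⟨r, hr, hr'⟩

/-- The coboundary along the cycles of `σ`. -/
def D (σ : Equiv.Perm V) : (V → ZMod 2) →ₗ[ZMod 2] (V → ZMod 2) where
  toFun a w := a w + a (σ.symm w)
  map_add' a b := by
    ext w
    simp only [Pi.add_apply]
    ring
  map_smul' c a := by
    ext w
    simp only [Pi.smul_apply, smul_eq_mul, RingHom.id_apply]
    ring

omit [Fintype V] in
lemma D_single (σ : Equiv.Perm V) (v : V) :
    D σ (Pi.single v 1) = Pi.single v 1 + Pi.single (σ v) 1 := by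
  ext w
  change (Pi.single v 1 : V → ZMod 2) w + (Pi.single v 1 : V → ZMod 2) (σ.symm w) = _
  rw [Pi.add_apply]
  congr 1
  by_cases h : w = σ v
  · subst h
    simp
  · rw [Pi.single_eq_of_ne h, Pi.single_eq_of_ne]
    intro h'
    exact h (by rw [← h', Equiv.apply_symm_apply])

lemma pow_mem_range (σ : Equiv.Perm V) (v : V) (i : ℕ) :
    (Pi.single v 1 + Pi.single ((σ ^ i) v) 1 : V → ZMod 2) ∈ LinearMap.range (D σ) := by
  induction i with
  | zero =>
    rw [pow_zero, Equiv.Perm.one_apply, two_zero]
    exact zero_mem _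
  | succ i ih =>
    have h1 : (Pi.single ((σ ^ i) v) 1 + Pi.single (σ ((σ ^ i) v)) 1 : V → ZMod 2) ∈
        LinearMap.range (D σ) := ⟨_, D_single σ _⟩
    have h2 := add_mem ih h1
    rw [add_assoc, ← add_assoc (Pi.single ((σ ^ i) v) 1), two_zero, zero_add] at h2
    rw [pow_succ', Equiv.Perm.mul_apply]
    exact h2

/-- The state which belongs to an even set. -/
theorem state {σ : Equiv.Perm V} (s : V → ZMod 2) (hs : T σ s = 0) :
    ∃ a : V → ZMod 2, ∀ v, s v = a v + a (σ.symm v) := by
  classical
  suffices h : s ∈ LinearMap.range (D σ) by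
    obtain ⟨a, ha⟩ := h
    exact ⟨a, fun v => (congrFun ha v).symm⟩
  let Q := Quotient (Equiv.Perm.SameCycle.setoid σ)
  let rep : V → V := fun v => (Quotient.mk (Equiv.Perm.SameCycle.setoid σ) v).out
  have hrep : ∀ v, σ.SameCycle (rep v) v := fun v =>
    Quotient.mk_out (s := Equiv.Perm.SameCycle.setoid σ) v
  have hrep' : ∀ v w, σ.SameCycle v w → rep v = rep w := by
    intro v w h
    have : Quotient.mk (Equiv.Perm.SameCycle.setoid σ) v =
      Quotient.mk (Equiv.Perm.SameCycle.setoid σ) w := Quotient.sound h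
    simp only [rep, this]
  have h1 : ∀ v, (Pi.single (rep v) 1 + Pi.single v 1 : V → ZMod 2) ∈ LinearMap.range (D σ) := by
    intro v
    obtain ⟨i, -, hi⟩ := (hrep v).exists_pow_eq'
    have := pow_mem_range σ (rep v) i
    rwa [hi] at this
  have h2 : s = ∑ v, s v • (Pi.single (rep v) 1 + Pi.single v 1 : V → ZMod 2) := by
    ext w
    rw [Finset.sum_apply]
    simp only [Pi.smul_apply, Pi.add_apply, smul_eq_mul, mul_add]
    rw [Finset.sum_add_distrib]
    have e1 : ∑ v, s v * (Pi.single v 1 : V → ZMod 2) w = s w := by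
      rw [Finset.sum_eq_single w]
      · simp
      · intro u _ hu
        rw [Pi.single_eq_of_ne hu.symm, mul_zero]
      · simp
    have e2 : ∑ v, s v * (Pi.single (rep v) 1 : V → ZMod 2) w = 0 := by
      by_cases hw : ∃ v, rep v = w
      · obtain ⟨v1, hv1⟩ := hw
        have h3 := congrFun hs w
        change (∑ v, if σ.SameCycle w v then s v else 0) = 0 at h3
        rw [← h3]
        refine Finset.sum_congr rfl fun v _ => ?_
        split_ifs with hc
        · have : rep v = w := by
            rw [← hv1]
            refine hrep' _ _ ?_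
            refine hc.symm.trans ?_
            rw [← hv1]
            exact hrep v1
          rw [this]
          simp
        · rw [Pi.single_eq_of_ne, mul_zero]
          rintro rfl
          exact hc (hrep v)
      · push Not at hw
        refine Finset.sum_eq_zero fun v _ => ?_
        rw [Pi.single_eq_of_ne (hw v).symm, mul_zero]
    rw [e1, e2, zero_add]
  rw [h2]
  exact sum_mem fun v _ => Submodule.smul_mem _ _ (h1 v)

end Pool.Agent.H30.Jg
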