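import Mathlib

set_option autoImplicit false

/-!
Packing two spanning connected edge sets: the abstract greedy argument.
-/

namespace Pool.Agent.H30.Jg

/-- Assign the elements of `U` one after the other to `A` or to `B`. -/
theorem pack {E : Type*} [DecidableEq E] (κ : Finset E → ℕ)
    (hanti : ∀ I J : Finset E, I ⊆ J → κ J ≤ κ I)
    (hsup : ∀ I J : Finset E, κ I + κ J ≤ κ (I ∪ J) + κ (I ∩ J)) (U : Finset E) :
    ∀ A B : Finset E, Disjoint A B → Disjoint A U → Disjoint B U →
      (∀ I ⊆ U, κ (I ∪ A) + κ (I ∪ B) ≤ (U \ I).card + 2) →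
      ∃ A' B' : Finset E, A ⊆ A' ∧ B ⊆ B' ∧ A' ⊆ A ∪ U ∧ B' ⊆ B ∪ U ∧ Disjoint A' B' ∧
        κ A' + κ B' ≤ 2 := by
  induction U using Finset.induction_on with
  | empty =>
    intro A B hAB _ _ h
    refine ⟨A, B, subset_rfl, subset_rfl, by simp, by simp, hAB, ?_⟩
    have := h ∅ (by simp)
    simpa using this
  | insert e U he ih =>
    intro A B hAB hAU hBU h
    have heA : e ∉ A := fun hh => (Finset.disjoint_left.mp hAU hh) (Finset.mem_insert_self _ _)
    have heB : e ∉ B := fun hh => (Finset.disjoint_left.mp hBU hh) (Finset.mem_insert_self _ _)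
    have hAU' : Disjoint A U := hAU.mono_right (Finset.subset_insert _ _)
    have hBU' : Disjoint B U := hBU.mono_right (Finset.subset_insert _ _)
    by_cases h1 : ∀ I ⊆ U, κ (I ∪ insert e A) + κ (I ∪ B) ≤ (U \ I).card + 2
    · obtain ⟨A', B', hA', hB', hA'', hB'', hd, hk⟩ := ih (insert e A) B
        (by rw [Finset.disjoint_insert_left]; exact ⟨heB, hAB⟩)
        (by rw [Finset.disjoint_insert_left]; exact ⟨he, hAU'⟩) hBU' h1
      refine ⟨A', B', (Finset.subset_insert _ _).trans hA', hB', hA''.trans ?_, hB''.trans ?_,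
        hd, hk⟩
      · intro x hx
        simp only [Finset.mem_union, Finset.mem_insert] at hx ⊢
        tauto
      · intro x hx
        simp only [Finset.mem_union, Finset.mem_insert] at hx ⊢
        tauto
    by_cases h2 : ∀ I ⊆ U, κ (I ∪ A) + κ (I ∪ insert e B) ≤ (U \ I).card + 2
    · obtain ⟨A', B', hA', hB', hA'', hB'', hd, hk⟩ := ih A (insert e B)
        (by rw [Finset.disjoint_insert_right]; exact ⟨heA, hAB⟩) hAU'
        (by rw [Finset.disjoint_insert_left]; exact ⟨he, hBU'⟩) h2
      refine ⟨A', B', hA', (Finset.subset_insert _ _).trans hB', hA''.trans ?_, hB''.trans ?_,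
        hd, hk⟩
      · intro x hx
        simp only [Finset.mem_union, Finset.mem_insert] at hx ⊢
        tauto
      · intro x hx
        simp only [Finset.mem_union, Finset.mem_insert] at hx ⊢
        tauto
    exfalso
    push Not at h1 h2
    obtain ⟨I₁, hI₁, h1⟩ := h1
    obtain ⟨I₂, hI₂, h2⟩ := h2
    have hJ := h (insert e (I₁ ∪ I₂)) (Finset.insert_subset_insert e (Finset.union_subset hI₁ hI₂))
    have hL := h (I₁ ∩ I₂) ((Finset.inter_subset_left.trans hI₁).trans (Finset.subset_insert _ _))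
    have s1 := hsup (I₁ ∪ insert e A) (I₂ ∪ A)
    have s2 := hsup (I₂ ∪ insert e B) (I₁ ∪ B)
    have e1 : (I₁ ∪ insert e A) ∪ (I₂ ∪ A) = insert e (I₁ ∪ I₂) ∪ A := by
      ext x
      simp only [Finset.mem_union, Finset.mem_insert]
      tauto
    have e2 : (I₂ ∪ insert e B) ∪ (I₁ ∪ B) = insert e (I₁ ∪ I₂) ∪ B := by
      ext x
      simp only [Finset.mem_union, Finset.mem_insert]
      tauto
    have a1 : κ ((I₁ ∪ insert e A) ∩ (I₂ ∪ A)) ≤ κ (I₁ ∩ I₂ ∪ A) := by
      refine hanti _ _ fun x hx => ?_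
      simp only [Finset.mem_union, Finset.mem_inter, Finset.mem_insert] at hx ⊢
      tauto
    have a2 : κ ((I₂ ∪ insert e B) ∩ (I₁ ∪ B)) ≤ κ (I₁ ∩ I₂ ∪ B) := by
      refine hanti _ _ fun x hx => ?_
      simp only [Finset.mem_union, Finset.mem_inter, Finset.mem_insert] at hx ⊢
      tauto
    rw [e1] at s1
    rw [e2] at s2
    have c1 : (insert e U \ insert e (I₁ ∪ I₂)).card = (U \ (I₁ ∪ I₂)).card := by
      congr 1
      ext x
      simp only [Finset.mem_sdiff, Finset.mem_insert, Finset.mem_union]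
      constructor
      · rintro ⟨h | h, h'⟩ <;> tauto
      · rintro ⟨hx, hx'⟩
        refine ⟨Or.inr hx, ?_⟩
        rintro (hxe | h'')
        · exact he (hxe ▸ hx)
        · exact hx' h''
    have c2 : (insert e U \ (I₁ ∩ I₂)).card = (U \ (I₁ ∩ I₂)).card + 1 := by
      have : insert e U \ (I₁ ∩ I₂) = insert e (U \ (I₁ ∩ I₂)) := by
        ext x
        simp only [Finset.mem_sdiff, Finset.mem_insert, Finset.mem_inter]
        constructor
        · rintro ⟨h | h, h'⟩ <;> tauto
        · rintro (rfl | ⟨h, h'⟩)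
          · exact ⟨Or.inl rfl, fun hh => he (hI₁ hh.1)⟩
          · exact ⟨Or.inr h, h'⟩
      rw [this, Finset.card_insert_of_notMem]
      simp [he]
    have c3 : (U \ I₁).card + (U \ I₂).card = (U \ (I₁ ∪ I₂)).card + (U \ (I₁ ∩ I₂)).card := by
      have k1 := Finset.card_sdiff_add_card_eq_card hI₁
      have k2 := Finset.card_sdiff_add_card_eq_card hI₂
      have k3 := Finset.card_sdiff_add_card_eq_card (Finset.union_subset hI₁ hI₂)
      have k4 := Finset.card_sdiff_add_card_eq_card
        (Finset.inter_subset_left.trans hI₁ : I₁ ∩ I₂ ⊆ U)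
      have k5 := Finset.card_union_add_card_inter I₁ I₂
      omega
    rw [c1] at hJ
    rw [c2] at hL
    omega

end Pool.Agent.H30.Jg
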