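import Pool.Agent.H30.Jg.Flip

set_option autoImplicit false

/-!
A state whose graph has only one nontrivial component.
-/

namespace Pool.Agent.H30.Jg

variable {V : Type*} [Fintype V] {σ : Equiv.Perm V} {m : V → V} {S : Finset V}

open Classical in
/-- The vertices on the cycle of `v` which are missed by the state. -/
noncomputable def unc (σ : Equiv.Perm V) (S : Finset V) (a : V → Bool) (v : V) : ℕ :=
  (Finset.univ.filter (fun w => σ.SameCycle v w ∧ w ∉ S ∧ a w = false)).card

open Classical in
/-- The size of the cycle of `v`. -/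
noncomputable def blk (σ : Equiv.Perm V) (v : V) : ℕ :=
  (Finset.univ.filter (fun w => σ.SameCycle v w)).card

open Classical in
/-- The vertices of `S` on the cycle of `v`. -/
noncomputable def Sblk (σ : Equiv.Perm V) (S : Finset V) (v : V) : Finset V :=
  Finset.univ.filter (fun w => σ.SameCycle v w ∧ w ∈ S)

lemma unc_same {a : V → Bool} {v w : V} (h : σ.SameCycle v w) : unc σ S a v = unc σ S a w := by
  classical
  rw [unc, unc]
  congr 1
  ext u
  simp only [Finset.mem_filter, Finset.mem_univ, true_and]
  have : σ.SameCycle v u ↔ σ.SameCycle w u := ⟨h.symm.trans, h.trans⟩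
  rw [this]

lemma unc_le (a : V → Bool) (v : V) : unc σ S a v + (Sblk σ S v).card ≤ blk σ v := by
  classical
  rw [unc, Sblk, blk, ← Finset.card_union_of_disjoint]
  · refine Finset.card_le_card fun w hw => ?_
    simp only [Finset.mem_union, Finset.mem_filter, Finset.mem_univ, true_and] at hw ⊢
    rcases hw with hw | hw
    · exact hw.1
    · exact hw.1
  · rw [Finset.disjoint_left]
    intro w hw hw'
    simp only [Finset.mem_filter, Finset.mem_univ, true_and] at hw hw'
    exact hw.2.1 hw'.2

/-- There is a state with at most one missed vertex on each cycle of `σ`. -/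
lemma good_start (h5 : ∀ v, blk σ v ≤ 5) (h2 : ∀ v, 2 ≤ (Sblk σ S v).card) {a : V → Bool}
    (ha : Comp σ S a) : ∃ a' : V → Bool, Comp σ S a' ∧ ∀ v, unc σ S a' v ≤ 1 := by
  classical
  refine ⟨fun v => if 2 ≤ unc σ S a v then !(a v) else a v, ?_, ?_⟩
  · intro v
    have hs : unc σ S a (σ.symm v) = unc σ S a v := by
      apply unc_same
      have := @Equiv.Perm.sameCycle_apply_right _ σ (σ.symm v) (σ.symm v)
      rw [Equiv.apply_symm_apply] at this
      exact this.mpr (Equiv.Perm.SameCycle.refl _ _)
    simp only [hs]
    rw [ha v]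
    split_ifs <;> simp
  · intro v
    by_cases hv : 2 ≤ unc σ S a v
    · have e1 : unc σ S (fun v => if 2 ≤ unc σ S a v then !(a v) else a v) v =
          (Finset.univ.filter (fun w => σ.SameCycle v w ∧ w ∉ S ∧ a w = true)).card := by
        rw [unc]
        congr 1
        ext w
        simp only [Finset.mem_filter, Finset.mem_univ, true_and]
        refine and_congr_right fun hvw => and_congr_right fun _ => ?_
        rw [if_pos (by rw [← unc_same hvw]; exact hv)]
        simp
      rw [e1]
      have e2 : (Finset.univ.filter (fun w => σ.SameCycle v w ∧ w ∉ S ∧ a w = true)).card +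
          unc σ S a v + (Sblk σ S v).card ≤ blk σ v := by
        rw [unc, Sblk, blk, ← Finset.card_union_of_disjoint, ← Finset.card_union_of_disjoint]
        · refine Finset.card_le_card fun w hw => ?_
          simp only [Finset.mem_union, Finset.mem_filter, Finset.mem_univ, true_and] at hw ⊢
          tauto
        · rw [Finset.disjoint_left]
          intro w hw hw'
          simp only [Finset.mem_union, Finset.mem_filter, Finset.mem_univ, true_and] at hw hw'
          tauto
        · rw [Finset.disjoint_left]
          intro w hw hw'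
          simp only [Finset.mem_filter, Finset.mem_univ, true_and] at hw hw'
          rw [hw.2.2] at hw'
          simp at hw'
      have := h5 v
      have := h2 v
      omega
    · have e1 : unc σ S (fun v => if 2 ≤ unc σ S a v then !(a v) else a v) v = unc σ S a v := by
        rw [unc, unc]
        congr 1
        ext w
        simp only [Finset.mem_filter, Finset.mem_univ, true_and]
        refine and_congr_right fun hvw => and_congr_right fun _ => ?_
        rw [if_neg (by rw [← unc_same hvw]; exact hv)]
      rw [e1]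
      omega

open Classical in
/-- The vertices of `S` reached from `s`. -/
noncomputable def Rs (h : Ctx σ m S) (s : V) (a : V → Bool) : Finset V :=
  S.filter (fun z => (H h a).Reachable s z)

/-- A state whose graph joins all vertices of `S`. -/
theorem all_reach (h : Ctx σ m S) (hconn : Conn σ m S) (hmσ : ∀ v, ¬ σ.SameCycle v (m v))
    (h5 : ∀ v, blk σ v ≤ 5) (h2 : ∀ v, 2 ≤ (Sblk σ S v).card) (h4 : ∀ v, (Sblk σ S v).card ≤ 4)
    {a : V → Bool} (ha : Comp σ S a) {s : V} (hs : s ∈ S) :
    ∃ a' : V → Bool, Comp σ S a' ∧ (∀ v, unc σ S a' v ≤ 1) ∧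
      ∀ z ∈ S, (H h a').Reachable s z := by
  classical
  obtain ⟨a0, ha0, ha0'⟩ := good_start h5 h2 ha
  obtain ⟨b, hb, hmax⟩ := Finset.exists_max_image
    (Finset.univ.filter (fun a : V → Bool => Comp σ S a ∧ ∀ v, unc σ S a v ≤ 1))
    (fun a => (Rs h s a).card) ⟨a0, by simp [ha0, ha0']⟩
  simp only [Finset.mem_filter, Finset.mem_univ, true_and] at hb hmax
  obtain ⟨hb1, hb2⟩ := hb
  refine ⟨b, hb1, hb2, ?_⟩
  have hmix : ∀ x ∈ S, ∀ y ∈ S, σ.SameCycle x y → (H h b).Reachable s x →
      (H h b).Reachable s y := by
    intro x hx y hy hxy hrx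
    by_contra hry
    have hF : ∀ w ∈ S, σ.SameCycle x w → w ∈ Sblk σ S x := by
      intro w hw hxw
      simp [Sblk, hw, hxw]
    obtain ⟨k1, k2, k3⟩ := merge h hmσ hb1 hs hx hy hxy (Sblk σ S x) hF (h4 x) hrx hry
    have hle := hmax (flip σ x b) ⟨flip_comp x hb1, ?_⟩
    · have hlt : (Rs h s b).card < (Rs h s (flip σ x b)).card := by
        apply Finset.card_lt_card
        rw [Finset.ssubset_iff_of_subset]
        · refine ⟨y, ?_, ?_⟩
          · simp only [Rs, Finset.mem_filter]
            exact ⟨hy, k2⟩
          · simp only [Rs, Finset.mem_filter, not_and]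
            exact fun _ => hry
        · intro z hz
          simp only [Rs, Finset.mem_filter] at hz ⊢
          exact ⟨hz.1, k1 z hz.1 hz.2⟩
      omega
    · intro v
      by_cases hxv : σ.SameCycle x v
      · rw [← unc_same hxv]
        have := unc_le (σ := σ) (S := S) (flip σ x b) x
        have := h5 x
        omega
      · have e1 : unc σ S (flip σ x b) v = unc σ S b v := by
          rw [unc, unc]
          congr 1
          ext w
          simp only [Finset.mem_filter, Finset.mem_univ, true_and]
          refine and_congr_right fun hvw => and_congr_right fun _ => ?_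
          rw [flip_of_not]
          exact fun hxw => hxv (hxw.trans hvw.symm)
        rw [e1]
        exact hb2 v
  have huniv := hconn {v | ∃ x ∈ S, σ.SameCycle v x ∧ (H h b).Reachable s x} ?_ ?_ ?_
  · intro z hz
    have : z ∈ {v | ∃ x ∈ S, σ.SameCycle v x ∧ (H h b).Reachable s x} := by
      rw [huniv]
      exact Set.mem_univ z
    obtain ⟨x, hx, hzx, hrx⟩ := this
    exact hmix x hx z hz hzx.symm hrx
  · intro v
    simp only [Set.mem_ofPred_eq, Equiv.Perm.sameCycle_apply_left]
  · intro v hv
    have hadj : (H h b).Adj v (m v) := Or.inl ⟨hv, rfl⟩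
    have hmv : m v ∈ S := (h.hS v).mpr hv
    simp only [Set.mem_ofPred_eq]
    constructor
    · rintro ⟨x, hx, hvx, hrx⟩
      have hr := hmix x hx (m v) hmv hvx.symm hrx
      exact ⟨v, hv, Equiv.Perm.SameCycle.refl _ _, hr.trans hadj.symm.reachable⟩
    · rintro ⟨x, hx, hvx, hrx⟩
      have hr := hmix x hx v hv hvx.symm hrx
      exact ⟨m v, hmv, Equiv.Perm.SameCycle.refl _ _, hr.trans hadj.reachable⟩
  · exact ⟨s, s, hs, Equiv.Perm.SameCycle.refl _ _, SimpleGraph.Reachable.refl _⟩

/-- The cycle of a connected state. -/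
theorem cycle_of (h : Ctx σ m S) {a : V → Bool} (ha : Comp σ S a) {s : V}
    (hs : ((H h a).neighborSet s).Nonempty)
    (hr : ∀ v, a v = true → (H h a).Reachable s v) :
    ∃ c : (H h a).Walk s s, c.IsCycle ∧ (∀ v, v ∈ c.support ↔ v ∈ S ∨ a v = true) ∧
      ∀ v ∈ S, s(v, m v) ∈ c.edges := by
  classical
  have hcyc := H_isCycles h ha
  obtain ⟨c, hc, hcv⟩ := hcyc.exists_cycle_toSubgraph_verts_eq_connectedComponentSupp
    (c := (H h a).connectedComponentMk s) (v := s)
    (SimpleGraph.ConnectedComponent.connectedComponentMk_mem) hs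
  have hsupp : ∀ v, v ∈ c.support ↔ (H h a).Reachable s v := by
    intro v
    rw [← SimpleGraph.Walk.mem_verts_toSubgraph, hcv, SimpleGraph.ConnectedComponent.mem_supp_iff,
      SimpleGraph.ConnectedComponent.eq]
    exact ⟨fun hh => hh.symm, fun hh => hh.symm⟩
  have hS : ∀ v ∈ S, (H h a).Reachable s v := by
    intro v hv
    rcases Bool.eq_false_or_eq_true (a v) with h1 | h1
    · exact hr v h1
    · have h2 : a (σ.symm v) = true := by
        have := (ha v).mp hv
        rw [h1] at this
        simpa using this.symm
      have hadj : (H h a).Adj (σ.symm v) v := Or.inr (Or.inl ⟨h2, by simp⟩)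
      exact (hr _ h2).trans hadj.reachable
  have hsup2 : ∀ v, v ∈ c.support ↔ v ∈ S ∨ a v = true := by
    intro v
    rw [hsupp]
    constructor
    · intro hh
      have hv : v ∈ c.support := (hsupp v).mpr hh
      have hne : ((H h a).neighborSet v).Nonempty := by
        have := hc.ncard_neighborSet_toSubgraph_eq_two hv
        have h0 : (c.toSubgraph.neighborSet v).Nonempty := by
          rw [← Set.ncard_pos (Set.toFinite _)]
          omega
        obtain ⟨w, hw⟩ := h0
        exact ⟨w, hw.adj_sub⟩
      by_contra hcon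
      push Not at hcon
      obtain ⟨hvS, hva⟩ := hcon
      have h2 : a (σ.symm v) ≠ true := by
        have := mt (ha v).mpr hvS
        push Not at this
        rwa [← this]
      rw [H_nbr] at hne
      obtain ⟨w, hw⟩ := hne
      rcases hw with ⟨h3, -⟩ | ⟨h3, -⟩ | ⟨h3, -⟩
      · exact hvS h3
      · exact hva h3
      · exact h2 h3
    · rintro (hv | hv)
      · exact hS v hv
      · exact hr v hv
  refine ⟨c, hc, hsup2, fun v hv => ?_⟩
  rw [← SimpleGraph.Walk.mem_edges_toSubgraph, SimpleGraph.Subgraph.mem_edgeSet]
  rw [hc.adj_toSubgraph_iff_of_isCycles hcyc (by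
    rw [SimpleGraph.Walk.mem_verts_toSubgraph]
    exact (hsup2 v).mpr (Or.inl hv))]
  exact Or.inl ⟨hv, rfl⟩

end Pool.Agent.H30.Jg
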